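import Pool.Agent.V7H53.GP.Final

/-!
# MP_b78433_nt: one level decides whether `μ` vanishes, for all primes `p`

Let `p` be any prime number (`p = 2` is allowed), and let `R m` be the layer of degree `p ^ m` of the
cyclotomic `ℤ_p`-extension of `ℚ`, that is, the totally real subfield of degree `p ^ m` of the field
of the roots of unity of order `p ^ (m + 2)`. Let `k` be an imaginary quadratic field and `K / k` a
finite abelian extension. For a subfield `E` of `K` let `r_m(E)` be the `p`-rank of the Galois group of
the maximal abelian extension of `E ⊔ R m` unramified at the finite primes; if `E` contains `k` (or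
`p` is odd) this is the `p`-rank of the class group of `E ⊔ R m`. `PRankLe p ∅` says that it is at most
`r`, and `PRankGe p ∅` that it is at least `r`. By Nakayama's lemma `μ = 0` for `E ⊇ k` if and only if the
numbers `r_m(E)` are bounded (`Bdd p ∅ R E`). This and class field theory are not used and not proved
here.

Let `F` be a field between `k` and `K` (for instance `F = k`), and let `κ` be a subfield of `k` over
which `F` and `K` are Galois extensions: `κ = k`, or `κ = ℚ` if possible. Let `F'` be a largest field
between `F` and `K` which is Galois over `κ` and of degree a power of `p` over `F` (`IsPLayer`), and let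
`d` be a lower bound for the dimensions of the irreducible representations of `Gal(K / κ)` over `𝔽_p`
which are not trivial on `Gal(K / F)` (`DimGe`). Let `m₀` be a number such that
`[K : ℚ] < p ^ (m₀ + 1)`, or such that `K` is contained in a finite Galois extension of `ℚ` of degree not
divisible by `p ^ (m₀ + 1)` (`BaseLevel`). `GapFrom p ∅ R F' K d m₀ m` is the inequality

  `r_m(K) ≥ r_m(F') + d ([K R_m : K] - [K R_m₀ : K])`.
-/

set_option autoImplicit false

namespace Pool.Agent.Results.MP_b78433_nt.AbelianLayerGapH53

open Module IntermediateField Pool.Agent.Q60.MU Pool.Agent.V7H44.MF Pool.Agent.V7H53.TR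
open Pool.Agent.V7H53.GG Pool.Agent.V7H53.GP

/-- **One level decides, for all primes `p`.** Let `k` be an imaginary quadratic field, `K / k` finite
abelian, `k ≤ F ≤ K`, and let `F / κ` and `K / κ` be Galois for a subfield `κ` of `k`.

(1) There is a largest layer `F'` of `p`-power degree over `F`, Galois over `κ`, in `K`.

(2) `MainPartFrom`. For all such `F'` and `d` as above:
(a) if `r_m(K) < r_m(F') + d ([K R_m : K] - [K R_m₀ : K])` for a single level `m > m₀`, then there is a
  constant `b` with `r_M(K) ≤ r_M(F') + b` for all levels `M` (no assumption on `F`);
(b) if `d > 0`, then the ranks of `K` are bounded (`μ = 0` for `K`) if and only if those of `F` are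
  bounded and `r_m(K) < r_m(F') + d ([K R_m : K] - [K R_m₀ : K])` for at least one `m > m₀`;
(c) if the ranks of `F` are bounded, but not those of some subfield `E` of `K`, then
  `r_m(K) ≥ r_m(F') + d ([K R_m : K] - [K R_m₀ : K])` for all levels `m > m₀`;
(d) if the ranks of `F` are bounded and `r_m(K) < d ([K R_m : K] - [K R_m₀ : K])` for a single level
  `m > m₀`, then the ranks of all the subfields of `K` are bounded.

(3) `AbelianPart`. Given the theorem of Ferrero and Washington (the ranks of the abelian number fields
are bounded; stated as a hypothesis), let `F` be abelian over `ℚ` (for instance `F = k`). Then for each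
subfield `E` of `K` the ranks are bounded, unless
`r_m(K) ≥ r_m(F') + d ([K R_m : K] - [K R_m₀ : K])` for all levels `m > m₀`; and for `d > 0` the ranks
of `K` are bounded if and only if this inequality fails for some `m > m₀`.

(4) `AbelianDimPart`. Allowed values of `d`: the smallest of the orders of `p` modulo the prime divisors
`ℓ ≠ p` of `[K : F]`; the number `2`, if `F` contains all subfields of `K` which are abelian over `κ`; the
order of `p` modulo `ℓ ^ a`, if `K / κ` is cyclic of degree divisible by `ℓ ^ a`, `a ≥ 1`, and
`[K : F] = ℓ`. -/
theorem result (p : ℕ) [Fact p.Prime] (R : ℕ → IntermediateField ℚ Qb) (hR : IsZpTower p R)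
    (κ k F K : IntermediateField ℚ Qb) (h : IsAbelianLayer κ k F K) (m₀ : ℕ)
    (hm₀ : BaseLevel p K m₀) :
    (∃ F', IsPLayer p κ F K F') ∧
    (∀ F', IsPLayer p κ F K F' → ∀ d, DimGe p κ F K d →
      MainPartFrom p ∅ R F K F' d m₀ ∧ AbelianPart p ∅ R F K F' d m₀) ∧
    AbelianDimPart p κ F K :=
  final hR h hm₀

end Pool.Agent.Results.MP_b78433_nt.AbelianLayerGapH53
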